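import Mathlib
import Pool.Agent.X253.CF.Ex

/-!
# The `3`-part of the Birch and Swinnerton-Dyer conjecture over `ℚ(√-3)` for the cubic twists
`y² + D y = x³` with arbitrary cube-free `D`

`K` is the field of third roots of unity and `D` runs through the cube-free `D = 1` modulo `3` of
`𝓞 K` whose norm is not `1` modulo `9`.  So `D = ∏ π_i ^ e_i` with different primes `π_i = 1` modulo
`3` and exponents `e_i` equal to `1` or `2`; the reduction is of type `IV` or `IV*` at `π_i`.

* For all these `D` the series `L(E_D / K, s)` is continued to an entire function, and the quotient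
  `ρ` of `L(E_D / K, 1)` and of the right-hand side of the conjecture (for rank `0`) without the
  order of `Ш` is integral at every valuation of `ℂ` above `3`, and it is a unit there if and only if
  `E_D(K)` is finite and `Ш(E_D / K)[3^∞] = 0`; then `L(E_D / K, 1) ≠ 0`.
* This is the case exactly when the kernel of the Laplacian with the weights `e_i` of the matrix of
  the cubic residue symbols of the `π_i`, that is of `v ↦ (∑ i, e_i χ_{j i} (v_i - v_j))_j`, consists
  of the constants.
* It is the case for exactly the proportion `∏_{i ≥ 0} (1 - 3^{-(2 i + 1)}) = 0.639...` of all these `D`,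
  ordered by the norm (`Pool/Agent/X253/CF`).

The group `Sha` of the library is the group of the continuous cocycles of the absolute Galois group
of `K` with values in the points over an algebraic closure of `K` that are coboundaries at all the
places, modulo the coboundaries.  `NonsingRed v W P` says that `P` is the point at infinity or that
one of the partial derivatives of the equation at `P` is not in the maximal ideal.

The squarefree `D` are the subject of the theorem `MP_9ab903_nt.ThreePartCubicTwists` of the starting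
library; the descent, the central value and the converse for arbitrary exponents are in its modules
`Pool/Agent/Y703/CT` and the ones they import.  New here are the `L`-function, the minimality, the
Tamagawa numbers (`Pool/Agent/X253/C3`), the law and the criterion for the exponents `2`.
-/

set_option autoImplicit false

namespace Pool.Agent.Results.MP_f50388_nt.CubeFreeCubicTwists

open NumberField IsDedekindDomain WeierstrassCurve
open Pool.Agent.TH841.NF.D (Sha)
open Pool.Agent.Y696 (NonsingRed)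
open scoped Classical

/-- The curve `E_D : y² + D y = x³`. -/
def curve {K : Type} [Field K] (D : K) : WeierstrassCurve K := ⟨0, 0, D, 0, 0⟩

variable {K : Type} [Field K] [NumberField K]

/-- `D` is cube-free and `1` modulo `3`, and its norm is not `1` modulo `9`. -/
def InClass (D : 𝓞 K) : Prop :=
  (3 : 𝓞 K) ∣ D - 1 ∧ (∀ p : 𝓞 K, Prime p → ¬ p ^ 3 ∣ D) ∧ ¬ (9 : ℤ) ∣ Algebra.norm ℤ D - 1

/-- The equation `W` is minimal at every finite place `v`, the number `c v` is the index of the
group of the points of nonsingular reduction in `W(K_v)` (the Tamagawa number), and `c v = 1` for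
all but finitely many `v`. -/
def IsTamagawa (W : WeierstrassCurve K) (c : HeightOneSpectrum (𝓞 K) → ℕ) : Prop :=
  (∀ v : HeightOneSpectrum (𝓞 K),
    IsMinimal (v.adicCompletionIntegers K) (W.baseChange (v.adicCompletion K)) ∧
    ∃ H : AddSubgroup (W.baseChange (v.adicCompletion K)).toAffine.Point,
      (∀ P, P ∈ H ↔ NonsingRed Valued.v (W.baseChange (v.adicCompletion K)) P) ∧
      H.index = c v) ∧
  {v | c v ≠ 1}.Finite

/-- `E_D(K)` is finite and the `3`-primary part of `Ш(E_D / K)` is trivial. -/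
def FiniteAndTrivial (D : 𝓞 K) : Prop :=
  Finite (curve (D : K)).toAffine.Point ∧ ∀ (n : ℕ) (x : Sha (curve (D : K))), 3 ^ n • x = 0 → x = 0

/-- The order of the torsion subgroup of `E_D(K)`. -/
noncomputable def torsionOrder (D : 𝓞 K) : ℕ :=
  Nat.card (AddCommGroup.torsion (curve (D : K)).toAffine.Point)

/-- The torsion subgroup of `E_D(K)` is finite, of order divisible by `3` and not by `9`; `Lf` is an
entire function equal to `L(E_D / K, s)` for `Re s > 3 / 2`; for every embedding `σ` of `K` and every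
pair of periods `ω₁, ω₂` of a lattice `Λ` with `g₂ = 0`, `g₃ = - σ(D)²` (the period lattice of
`E_D`; `A = |Im (conj ω₁ ω₂)|` is the area of a period parallelogram, and `2 A` is the factor of
`Ω(E_D)` at the complex place; such a `Λ` exists)
`Lf 1 = ρ · 2 A · ∏ c_v / (√|Δ(K)| |E_D(K)_tors|²)`, where `ρ` is integral at every valuation `v` of
`ℂ` above `3`, and a unit if and only if `E_D(K)` is finite and `Ш(E_D / K)[3^∞] = 0`. -/
def Law (D : 𝓞 K) : Prop :=
  Finite (AddCommGroup.torsion (curve (D : K)).toAffine.Point) ∧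
  padicValNat 3 (torsionOrder D) = 1 ∧
  ∃ (Lf : ℂ → ℂ) (c : HeightOneSpectrum (𝓞 K) → ℕ),
    Differentiable ℂ Lf ∧
    (∀ s : ℂ, 3 / 2 < s.re →
      LSeriesSummable ((fun n : ℤ => (n : ℂ)) ∘ (curve (D : K)).LFunction) s ∧
        Lf s = (curve (D : K)).LSeries s) ∧
    (FiniteAndTrivial D → Lf 1 ≠ 0) ∧
    IsTamagawa (curve (D : K)) c ∧
    ∀ σ : K →+* ℂ, (∃ Λ : PeriodPair, Λ.g₂ = 0 ∧ Λ.g₃ = -(σ D) ^ 2) ∧
      ∀ Λ : PeriodPair, Λ.g₂ = 0 → Λ.g₃ = -(σ D) ^ 2 → ∃ ρ : ℂ,
        Lf 1 = ρ * (((2 * |((starRingEnd ℂ) Λ.ω₁ * Λ.ω₂).im| : ℝ) : ℂ) * ((∏ᶠ w, c w : ℕ) : ℂ) /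
          (((Real.sqrt |(discr K : ℝ)| : ℝ) : ℂ) * (torsionOrder D : ℂ) ^ 2)) ∧
        ∀ (Γ : Type) [LinearOrderedCommGroupWithZero Γ] (v : Valuation ℂ Γ), v 3 < 1 →
          v ρ ≤ 1 ∧ (v ρ = 1 ↔ FiniteAndTrivial D)

/-- `D = ∏ (π i) ^ (e i)`, where the `π i` are different primes, `1` modulo `3`, the exponents `e i`
are `1` or `2`, and the cubic residue symbol of `π i` modulo `π j` is `ω ^ χ j i`. -/
def IsFactorization (ω D : 𝓞 K) (n : ℕ) (π : Fin n → 𝓞 K) (e : Fin n → ℕ)
    (χ : Fin n → Fin n → ZMod 3) : Prop :=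
  (∀ i, Prime (π i) ∧ (3 : 𝓞 K) ∣ π i - 1) ∧ (∀ i, e i = 1 ∨ e i = 2) ∧
  Function.Injective π ∧ D = ∏ i, π i ^ e i ∧
  ∀ i j, i ≠ j →
    π j ∣ π i ^ (((Algebra.norm ℤ (π j)).natAbs - 1) / 3) - ω ^ (χ j i).val

/-- The kernel of the Laplacian of `χ` with the weights `e i` over the field with three elements
consists of the constants. -/
def IsConnected {n : ℕ} (e : Fin n → ℕ) (χ : Fin n → Fin n → ZMod 3) : Prop :=
  ∀ v : Fin n → ZMod 3, (∀ j, ∑ i, (e i : ZMod 3) * χ j i * (v i - v j) = 0) → ∀ i j, v i = v j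

/-- `D` has a factorization, and for each one: `E_D(K)` is finite and `Ш(E_D / K)[3^∞] = 0` if and
only if the kernel of the weighted Laplacian of the cubic residue symbols consists of the
constants. -/
def Criterion (D : 𝓞 K) : Prop :=
  (∃ (ω : 𝓞 K) (n : ℕ) (π : Fin n → 𝓞 K) (e : Fin n → ℕ) (χ : Fin n → Fin n → ZMod 3),
    ω ^ 2 + ω + 1 = 0 ∧ IsFactorization ω D n π e χ) ∧
  ∀ (ω : 𝓞 K) (n : ℕ) (π : Fin n → 𝓞 K) (e : Fin n → ℕ) (χ : Fin n → Fin n → ZMod 3),
    ω ^ 2 + ω + 1 = 0 → IsFactorization ω D n π e χ → (FiniteAndTrivial D ↔ IsConnected e χ)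

/-- **The `3`-part of the leading-term formula for all cube-free `D` of the class**, the criterion,
and the exact proportion of the elements for which both sides are units above `3`. -/
theorem result (K : Type) [Field K] [NumberField K] [IsCyclotomicExtension {3} ℚ K] :
    (∀ D : 𝓞 K, InClass D → Law D ∧ Criterion D) ∧
    (∃ c : ℝ, 0 < c ∧ ∃ X₀ : ℕ, ∀ X : ℕ, X₀ ≤ X →
      c * X ≤ ({D : 𝓞 K | Algebra.norm ℤ D ≤ X ∧ InClass D}.ncard : ℝ)) ∧
    Filter.Tendsto (fun X : ℕ =>
      ({D : 𝓞 K | Algebra.norm ℤ D ≤ X ∧ InClass D ∧ FiniteAndTrivial D}.ncard : ℝ) /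
        ({D : 𝓞 K | Algebra.norm ℤ D ≤ X ∧ InClass D}.ncard : ℝ))
      Filter.atTop (nhds (∏' i : ℕ, (1 - (1 / 3 : ℝ) ^ (2 * i + 1)))) ∧
    0.639 < ∏' i : ℕ, (1 - (1 / 3 : ℝ) ^ (2 * i + 1)) ∧
    ∏' i : ℕ, (1 - (1 / 3 : ℝ) ^ (2 * i + 1)) < 0.6391 :=
  ⟨fun D hD => Pool.Agent.X253.C3.main_cf K D hD, Pool.Agent.X253.CF.prop_exact K⟩

end Pool.Agent.Results.MP_f50388_nt.CubeFreeCubicTwists
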