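import Pool.Agent.X287.Full
import Pool.Agent.X287.NFCurve

/-!
# The refined formula of Birch and Swinnerton-Dyer over number fields from one-sided bounds for finite sums

`K` is any number field and `E : y² = x³ + a x + b`, `a, b ∈ 𝓞_K`, any elliptic curve over `K` (for instance a curve
over `ℚ`; every elliptic curve has such an equation). The `L`-series is the COMPLETE one,

`L(E/K, s) = ∏_v (1 - c_v q_v^{-s} + e_v q_v^{-2s})⁻¹`, all finite places `v`,

where `c_v = q_v - N_v` (`N_v` the number of affine points of the equation modulo `v`) and `e_v = q_v` if `v` does not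
divide `6 (4 a³ + 27 b²)`; at the finitely many other places `c_v, e_v` are the usual numbers, or any integers such
that the reciprocal roots of the local polynomial have absolute value `≤ √q_v`. For `ρ' > ρ > 1` let

`S_{ρ,ρ'}(Y) = - ∑ w_{1/ρ}(k log q_v / log Y) (α_v^k + β_v^k) / (k q_v^k)`,

the FINITE sum over the pairs `(v, k)`, `k ≥ 1`, with `q_v^k ≤ exp((log Y)^ρ')`, where
`1 - c_v X + e_v X² = (1 - α_v X) (1 - β_v X)` and `w_α` is the smooth Mittag-Leffler weight
`w_α(u) = (2π)⁻¹ ∫ Re (exp(z - u z^α) / z) dt`, `z = 1 + i t`, `w_α(0) = 1`. So `exp S_{ρ,ρ'}(Y)` is a smoothed form of the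
product of the `#E(k_v) / q_v`, the LOCAL numbers of points. Let `R(T) = #{P ∈ E(K) : h_K(x(P)) ≤ T}` be the GLOBAL number of
points of height `≤ T`, `r` the rank of `E(K)`, `Reg` the regulator (canonical height relative to `K`), `#T` the order of
the torsion subgroup, `V_r = π^(r/2) / Γ(r/2 + 1)`, `γ` the constant of Euler.

The ONLY hypothesis is that `L(E/K, s)` continues holomorphically to a neighbourhood of the real segment `[1, 3/2]` (this
is a part of what the refined conjecture asserts, which asks for a neighbourhood of `1`). Let `m` be the order and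
`l` the leading coefficient of `L(E/K, s)` at `s = 1`. For `ρ₀ ≥ 1` let `V` be the open sector
`|arg (s - 1)| < π / (2 ρ₀)`, the half plane `Re s > 1` if `ρ₀ = 1`, and let `(Z)` be the statement

  `L(E/K, s)` has a holomorphic continuation WITHOUT ZEROS to the union of `V` and `{Re s > 3/2}`

(for `ρ₀ = 1` it contains the Riemann hypothesis). Fix, for every `ρ`, a `ρ' = t(ρ) > ρ`. Let `B > 0` be any real number,
for instance the number `B = #Sha Ω_{E/K} C_{E/K} / |Disc K|^{1/2}` of the refined conjecture. Then: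

1. `(Z)` and (`m < r`, or `m = r` and `l ≥ B Reg / (#T)²`) if and only if for all `ρ > ρ₀`, `ε > 0` and all large `Y`
   `S_{ρ,ρ'}(Y) ≤ 2 log R(log Y) - log (B V_r²) + r γ / ρ + ε`.
2. `(Z)`, `m = r` and `l = B Reg / (#T)²` if and only if for all `ρ > ρ₀`
   `S_{ρ,ρ'}(Y) - 2 log R(log Y) → r γ / ρ - log (B V_r²)`.
3. `(Z)` and `m = r` if and only if for all `ρ > ρ₀` the difference `S_{ρ,ρ'}(Y) - 2 log R(log Y)` is bounded.
4. `(Z)` if and only if for all `ρ > ρ₀`, `ε > 0` and all large `Y`: `S_{ρ,ρ'}(Y) ≤ exp (ε (log Y)^ρ)`.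

So the continuation, the absence of zeros in the sector, the order and the refined formula TOGETHER are equivalent
to one asymptotic relation between the numbers of local points and of global points, in which neither the
`L`-function nor the regulator nor the torsion appears, and half of this is equivalent to a ONE-SIDED bound:
an upper bound for finite sums yields the analytic continuation into the complex domain, the absence of zeros, and
the inequality between the leading coefficient and its predicted value. In all cases `l` is a positive real number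
if `(Z)` holds.

Proof. For the pairs with `Y = exp(y^{1/ρ})` the sum is, up to `o(1)`, a function `f(y)` with
`∫ f(y) e^{-vy} dy = - (d/dv) (g(v)/v)`, `g(v) = - log L(1 + v^{1/ρ})` for large `Re v`. By Landau's theorem on
Laplace transforms of nonnegative functions an upper bound for `f` excludes first real zeros and then all the
singularities in `Re v > 0`. The asymptotic formula in zero-free sectors and the asymptotic formula of Néron for
`R(T)` are in the imported files (`Pool.Agent.TH942`). New: `Pool.Agent.X287.RSect`, `RSect2`, `RSys`, `RSys2`, `Kit`,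
`Beta`, `Full`.
-/

set_option autoImplicit false

open IsDedekindDomain NumberField Filter Topology Classical

namespace Pool.Agent.Results.MP_f50388_nt.OneSidedFormula

variable {K : Type} [Field K] [NumberField K]

/-- The prime `v` does not divide `6 (4 a³ + 27 b²)`. -/
def Good (a b : 𝓞 K) (v : HeightOneSpectrum (𝓞 K)) : Prop :=
  6 * (4 * a ^ 3 + 27 * b ^ 2) ∉ v.asIdeal

/-- `q_v`, the number of elements of the residue field. -/
noncomputable def q (v : HeightOneSpectrum (𝓞 K)) : ℕ := Ideal.absNorm v.asIdeal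

/-- `N_v`, the number of affine points of `y² = x³ + a x + b` modulo `v`. -/
noncomputable def points (a b : 𝓞 K) (v : HeightOneSpectrum (𝓞 K)) : ℕ :=
  Nat.card {P : (𝓞 K ⧸ v.asIdeal) × (𝓞 K ⧸ v.asIdeal) //
    P.2 ^ 2 = P.1 ^ 3 + Ideal.Quotient.mk v.asIdeal a * P.1 + Ideal.Quotient.mk v.asIdeal b}

/-- The coefficients of the local polynomials `1 - c_v X + e_v X²`: `c_v = q_v - N_v`, `e_v = q_v` for
`v ∤ 6 (4 a³ + 27 b²)`; for the other `v` the reciprocal roots have absolute value at most `√q_v`. -/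
def IsLocalData (a b : 𝓞 K) (c e : HeightOneSpectrum (𝓞 K) → ℤ) : Prop :=
  (∀ v, Good a b v → c v = (q v : ℤ) - points a b v ∧ e v = q v) ∧
  ∀ v, ¬Good a b v → ∀ z : ℂ, z ^ 2 - c v * z + e v = 0 → ‖z‖ ≤ √(q v : ℝ)

/-- The power sums `α ^ n + β ^ n`, where `1 - c X + e X² = (1 - α X) (1 - β X)`, by the recursion. -/
def powerSum (c e : ℤ) : ℕ → ℤ
  | 0 => 2
  | 1 => c
  | n + 2 => c * powerSum c e (n + 1) - e * powerSum c e n

/-- The Mittag-Leffler weight `w_α(u) = (2π)⁻¹ ∫ Re (exp (z - u z^α) / z) dt`, `z = 1 + it`. -/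
noncomputable def weight (α u : ℝ) : ℝ :=
  (2 * Real.pi)⁻¹ * ∫ t : ℝ, (Complex.exp ((1 + t * Complex.I) -
    u * (1 + t * Complex.I) ^ (α : ℂ)) / (1 + t * Complex.I)).re

/-- The pairs `(v, k)`, `k = x.2 + 1`, with `q_v ^ k ≤ exp((log Y)^ρ')`. -/
def pairs (K : Type) [Field K] [NumberField K] (ρ' Y : ℝ) : Set (HeightOneSpectrum (𝓞 K) × ℕ) :=
  {x | (q x.1 : ℝ) ^ (x.2 + 1) ≤ Real.exp (Real.log Y ^ ρ')}

/-- `S_{ρ,ρ'}(Y)`: minus the sum over the finite set `pairs`, with `k = x.2 + 1`. -/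
noncomputable def S (c e : HeightOneSpectrum (𝓞 K) → ℤ) (ρ ρ' Y : ℝ) : ℝ :=
  -∑ᶠ x ∈ pairs K ρ' Y, weight ρ⁻¹ (((x.2 : ℝ) + 1) * Real.log (q x.1) / Real.log Y) *
    (powerSum (c x.1) (e x.1) (x.2 + 1) / (((x.2 : ℝ) + 1) * (q x.1 : ℝ) ^ (x.2 + 1)))

/-- `s` lies in the sector `|arg (s - 1)| < π / (2ρ)`, `s ≠ 1`; the half plane `Re s > 1` for `ρ = 1`. -/
def InSector (ρ : ℝ) (s : ℂ) : Prop := s ≠ 1 ∧ |Complex.arg (s - 1)| < Real.pi / (2 * ρ)

/-- `G` is the `L`-series for `Re s > 3/2`. -/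
def IsLSeries (c e : HeightOneSpectrum (𝓞 K) → ℤ) (G : ℂ → ℂ) : Prop :=
  ∀ s : ℂ, 3 / 2 < s.re → HasProd (fun v : HeightOneSpectrum (𝓞 K) =>
    (1 - c v * (q v : ℂ) ^ (-s) + e v * ((q v : ℂ) ^ (-s)) ^ 2)⁻¹) (G s)

/-- `F` continues the `L`-series holomorphically to a neighbourhood of the real segment `[1, 3/2]`. -/
def IsRealContinuation (c e : HeightOneSpectrum (𝓞 K) → ℤ) (F : ℂ → ℂ) : Prop :=
  IsLSeries c e F ∧ ∀ x : ℝ, 1 ≤ x → x ≤ 3 / 2 → AnalyticAt ℂ F (x : ℂ)

/-- `F` has the order `m` and the leading coefficient `l` at `s = 1`. -/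
def HasOrder (F : ℂ → ℂ) (m : ℕ) (l : ℂ) : Prop :=
  l ≠ 0 ∧ Tendsto (fun s => F s / (s - 1) ^ m) (𝓝[≠] 1) (𝓝 l)

/-- `(Z)`: the `L`-series has a holomorphic continuation without zeros to the union of the sector and
`{Re s > 3/2}`. -/
def ZeroFree (c e : HeightOneSpectrum (𝓞 K) → ℤ) (ρ₀ : ℝ) : Prop := ∃ G : ℂ → ℂ, IsLSeries c e G ∧
  ∀ s : ℂ, InSector ρ₀ s ∨ 3 / 2 < s.re → DifferentiableAt ℂ G s ∧ G s ≠ 0

/-- The curve `y² = x³ + a x + b` over `K`. -/
def curve (a b : 𝓞 K) : WeierstrassCurve K := { a₁ := 0, a₂ := 0, a₃ := 0, a₄ := a, a₆ := b }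

/-- The group `E(K)` of the points of `y² = x³ + a x + b`. -/
abbrev Points (a b : 𝓞 K) : Type := (curve a b).toAffine.Point

/-- The height `h_K(x(P)) = ∑_v n_v log max (1, |x(P)|_v)` (Mathlib's logarithmic height, relative to `K`), and
`0` for the point at infinity. -/
noncomputable def height {a b : 𝓞 K} : Points a b → ℝ
  | .zero => 0
  | .some x _ _ => Height.logHeight₁ x

/-- The canonical height `lim 4^{-n} h_K(x(2^n P))`. -/
noncomputable def canHeight {a b : 𝓞 K} (P : Points a b) : ℝ :=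
  limUnder atTop fun n : ℕ => height ((2 ^ n : ℕ) • P) / 4 ^ n

/-- `⟨P, Q⟩ = (ĥ(P + Q) - ĥ(P) - ĥ(Q)) / 2` -/
noncomputable def pairing {a b : 𝓞 K} (P Q : Points a b) : ℝ :=
  (canHeight (P + Q) - canHeight P - canHeight Q) / 2

/-- `g` is a basis of `E(K)` modulo torsion. -/
def IsBasis {a b : 𝓞 K} {r : ℕ} (g : Fin r → Points a b) : Prop :=
  ∀ P : Points a b, ∃! n : Fin r → ℤ, IsOfFinAddOrder (P - ∑ i, n i • g i)

/-- The regulator `det (⟨g_i, g_j⟩)`. -/
noncomputable def Reg {a b : 𝓞 K} {r : ℕ} (g : Fin r → Points a b) : ℝ :=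
  (Matrix.of fun i j => pairing (g i) (g j)).det

/-- The order of the torsion subgroup. -/
noncomputable def numTorsion (a b : 𝓞 K) : ℕ := Nat.card {P : Points a b // IsOfFinAddOrder P}

/-- `R(T)`: the number of the points of `E(K)` of height at most `T`. -/
noncomputable def R (a b : 𝓞 K) (T : ℝ) : ℕ := Nat.card {P : Points a b // height P ≤ T}

/-- The volume `π^(r/2) / Γ(r/2 + 1)` of the unit ball in `ℝ^r`. -/
noncomputable def V (r : ℕ) : ℝ := √Real.pi ^ r / Real.Gamma (r / 2 + 1)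

/-! ### Translation -/

open Pool.Agent.Results.MP_9ab903_nt in
theorem height_eq {a b : 𝓞 K} (P : Points a b) :
    height P = RegulatorFree.height (a := (a : K)) (b := (b : K)) P := by
  cases P with
  | zero => rfl
  | some x y h => rfl

open Pool.Agent.Results.MP_9ab903_nt in
theorem R_eq (a b : 𝓞 K) (T : ℝ) : R a b T = RegulatorFree.R (a : K) (b : K) T := by
  unfold R RegulatorFree.R
  simp only [height_eq]
  rfl

open Pool.Agent.Results.MP_9ab903_nt in
theorem canHeight_eq {a b : 𝓞 K} (P : Points a b) :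
    canHeight P = RegulatorFree.canHeight (a := (a : K)) (b := (b : K)) P := by
  unfold canHeight RegulatorFree.canHeight
  simp only [height_eq]
  rfl

open Pool.Agent.Results.MP_9ab903_nt in
theorem Reg_eq {a b : 𝓞 K} {r : ℕ} (g : Fin r → Points a b) :
    Reg g = RegulatorFree.Reg (a := (a : K)) (b := (b : K)) g := by
  unfold Reg RegulatorFree.Reg pairing RegulatorFree.pairing
  simp only [canHeight_eq]
  rfl

theorem ps_eq (c e : ℤ) (n : ℕ) : Pool.Agent.X287.Kit.ps c e n = powerSum c e n := by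
  induction n using Nat.twoStepInduction with
  | zero => simp [Pool.Agent.X287.Kit.ps, powerSum]
  | one => simp [Pool.Agent.X287.Kit.ps, powerSum]
  | more n ih1 ih2 =>
    simp only [Pool.Agent.X287.Kit.ps, powerSum]
    rw [ih1, ih2]
    push_cast
    ring

theorem S_eq (c e : HeightOneSpectrum (𝓞 K) → ℤ) (ρ ρ' Y : ℝ) : S c e ρ ρ' Y =
    -Pool.Agent.TH942.ES.StE (fun v : HeightOneSpectrum (𝓞 K) => q v)
      (Pool.Agent.X287.Kit.al (fun v : HeightOneSpectrum (𝓞 K) => q v)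
        (Pool.Agent.X287.Kit.rts c e) 1) ρ ρ' Y := by
  unfold S Pool.Agent.TH942.ES.StE
  congr 1
  refine finsum_congr fun x => ?_
  refine finsum_congr_Prop rfl fun _ => ?_
  have e1 : weight = Pool.Agent.TH942.SL.wml := rfl
  rw [e1]
  congr 1
  have h := Pool.Agent.X287.Kit.full_cP (c := c) (e := e) (c₀ := 1) x
  refine Eq.trans ?_ h.symm
  rw [ps_eq, mul_one]
  congr 2
  rw [← Real.rpow_natCast]
  push_cast
  rfl

open Pool.Agent.X287.Kit in
/-- **The refined formula of Birch and Swinnerton-Dyer from one-sided bounds for finite sums.** -/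
theorem result (K : Type) [Field K] [NumberField K] (a b : 𝓞 K) (hΔ : 4 * a ^ 3 + 27 * b ^ 2 ≠ 0)
    (c e : HeightOneSpectrum (𝓞 K) → ℤ) (hce : IsLocalData a b c e)
    (F : ℂ → ℂ) (hF : IsRealContinuation c e F) :
    (∀ ρ' Y : ℝ, (pairs K ρ' Y).Finite) ∧
    (∃ (r : ℕ) (g : Fin r → Points a b), IsBasis g) ∧
    ∃ (m : ℕ) (l : ℂ), HasOrder F m l ∧
      ∀ (r : ℕ) (g : Fin r → Points a b), IsBasis g → 0 < Reg g ∧
      ∀ t : ℝ → ℝ, (∀ ρ, ρ < t ρ) → ∀ ρ₀ : ℝ, 1 ≤ ρ₀ →
      (ZeroFree c e ρ₀ → 0 < l.re ∧ l.im = 0) ∧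
      -- 1. one half of the formula: a one-sided bound
      (∀ B : ℝ, 0 < B →
        ((ZeroFree c e ρ₀ ∧ (m < r ∨ m = r ∧ B * Reg g / numTorsion a b ^ 2 ≤ l.re)) ↔
        ∀ ρ : ℝ, ρ₀ < ρ → ∀ ε : ℝ, 0 < ε → ∀ᶠ Y : ℝ in atTop,
          S c e ρ (t ρ) Y ≤ 2 * Real.log (R a b (Real.log Y)) - Real.log (B * V r ^ 2) +
            r * Real.eulerMascheroniConstant / ρ + ε)) ∧
      -- 2. the formula
      (∀ B : ℝ, 0 < B →
        ((ZeroFree c e ρ₀ ∧ m = r ∧ l = ((B * Reg g / numTorsion a b ^ 2 : ℝ) : ℂ)) ↔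
        ∀ ρ : ℝ, ρ₀ < ρ →
          Tendsto (fun Y : ℝ => S c e ρ (t ρ) Y - 2 * Real.log (R a b (Real.log Y))) atTop
            (𝓝 (r * Real.eulerMascheroniConstant / ρ - Real.log (B * V r ^ 2))))) ∧
      -- 3. the order
      ((ZeroFree c e ρ₀ ∧ m = r) ↔
        ∀ ρ : ℝ, ρ₀ < ρ → ∃ C : ℝ, ∀ᶠ Y : ℝ in atTop,
          |S c e ρ (t ρ) Y - 2 * Real.log (R a b (Real.log Y))| ≤ C) ∧
      -- 4. continuation and zeros
      (ZeroFree c e ρ₀ ↔ ∀ ρ : ℝ, ρ₀ < ρ → ∀ ε : ℝ, 0 < ε → ∀ᶠ Y : ℝ in atTop,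
        S c e ρ (t ρ) Y ≤ Real.exp (ε * Real.log Y ^ ρ)) := by
  have hΔ' : 4 * (a : K) ^ 3 + 27 * (b : K) ^ 2 ≠ 0 := by
    intro h
    apply hΔ
    refine (map_eq_zero_iff _ (IsFractionRing.injective (𝓞 K) K)).1 ?_
    simp only [map_add, map_mul, map_pow, map_ofNat]
    exact h
  have hloc : Local a b c e := ⟨fun v hv => by
    obtain ⟨h1, h2⟩ := hce.1 v hv
    constructor
    · rw [h1]
      push_cast
      rfl
    · rw [h2]
      push_cast
      rfl, hce.2⟩
  have E := full_sys hloc le_rfl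
  have hreal := full_real (K := K) (c := c) (e := e) (c₀ := 1)
  have hc : (1 : ℂ) = ((1 : ℝ) : ℂ) := by norm_num
  have ha : (3 / 2 : ℝ) = 1 + 1 / 2 := by norm_num
  have hl := full_loc (K := K) (c := c) (e := e) hc
  have H := rcon E hl hc ha hF.1 hF.2
  have h0 := an_all E hl hc ha hF.1 hF.2 0 le_rfl
  rw [Complex.ofReal_zero] at h0
  obtain ⟨m, A, hA⟩ := Pool.Agent.X287.RS.exists_lead E H h0
  have hZ := zf_iff E hl hc ha
  refine ⟨fun ρ' Y => E.finS _, Pool.Agent.TH942.exists_basis (Pool.Agent.TH942.sfg hΔ'), m, A,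
    (lead_iff h0 m A).2 hA, fun r g hg => ?_⟩
  have hreg : 0 < Reg g := by
    rw [Reg_eq]
    exact ((Pool.Agent.Results.MP_9ab903_nt.RegulatorFree.neron' hΔ').2 r g hg).1
  refine ⟨hreg, fun t ht ρ₀ h => ?_⟩
  have hQ := Pool.Agent.X287.NF.R_log hΔ' hg
  rw [← Reg_eq] at hQ
  set κ : ℝ := Real.log ((Pool.Agent.Results.MP_9ab903_nt.RegulatorFree.numTorsion (a : K) (b : K) :
    ℝ) ^ 2 * Pool.Agent.Results.MP_9ab903_nt.RegulatorFree.V r ^ 2 / Reg g) with hκ
  have hV : 0 < V r := Pool.Agent.Results.MP_9ab903_nt.RegulatorFree.V_pos r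
  have htor : (0 : ℝ) < numTorsion a b := by
    exact_mod_cast Pool.Agent.Results.MP_9ab903_nt.RegulatorFree.numTorsion_pos hΔ'
  have hκB : ∀ B : ℝ, 0 < B → -κ - Real.log (B * Reg g / numTorsion a b ^ 2) =
      -Real.log (B * V r ^ 2) := by
    intro B hB
    have e1 : κ = Real.log ((numTorsion a b : ℝ) ^ 2 * V r ^ 2 / Reg g) := rfl
    rw [e1, sub_eq_add_neg, ← neg_add, ← Real.log_mul (by positivity) (by positivity)]
    congr 2
    field_simp
  have hBp : ∀ B : ℝ, 0 < B → 0 < B * Reg g / (numTorsion a b : ℝ) ^ 2 := fun B hB => by positivity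
  have hQ' : Tendsto (fun Y : ℝ => 2 * Real.log (R a b (Real.log Y)) -
      r * Real.log (Real.log Y)) atTop (𝓝 κ) := by
    refine hQ.congr fun Y => ?_
    rw [R_eq]
  have c1 : ∀ B : ℝ, 0 < B →
      ((ZeroFree c e ρ₀ ∧ (m < r ∨ m = r ∧ B * Reg g / numTorsion a b ^ 2 ≤ A.re)) ↔
        ∀ ρ : ℝ, ρ₀ < ρ → ∀ ε : ℝ, 0 < ε → ∀ᶠ Y : ℝ in atTop,
          S c e ρ (t ρ) Y ≤ 2 * Real.log (R a b (Real.log Y)) - Real.log (B * V r ^ 2) +
            r * Real.eulerMascheroniConstant / ρ + ε) := by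
    intro B hB
    have h1 := Pool.Agent.X287.RS.coeff_le E hreal H hA h ht hQ' (hBp B hB)
    rw [← hZ ρ₀] at h1
    refine Iff.trans h1 ?_
    refine forall_congr' fun ρ => imp_congr_right fun _ => forall_congr' fun ε =>
      imp_congr_right fun _ => ?_
    refine iff_of_eq (congrArg (fun P : ℝ → Prop => ∀ᶠ Y : ℝ in atTop, P Y) (funext fun Y => ?_))
    rw [S_eq]
    have e1 := hκB B hB
    have e2 : 2 * Real.log (R a b (Real.log Y)) - κ -
        Real.log (B * Reg g / numTorsion a b ^ 2) + r * Real.eulerMascheroniConstant / ρ + ε =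
        2 * Real.log (R a b (Real.log Y)) - Real.log (B * V r ^ 2) +
          r * Real.eulerMascheroniConstant / ρ + ε := by linarith
    rw [e2]
    rfl
  have c2 : ∀ B : ℝ, 0 < B →
      ((ZeroFree c e ρ₀ ∧ m = r ∧ A = ((B * Reg g / numTorsion a b ^ 2 : ℝ) : ℂ)) ↔
        ∀ ρ : ℝ, ρ₀ < ρ →
          Tendsto (fun Y : ℝ => S c e ρ (t ρ) Y - 2 * Real.log (R a b (Real.log Y))) atTop
            (𝓝 (r * Real.eulerMascheroniConstant / ρ - Real.log (B * V r ^ 2)))) := by
    intro B hB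
    have h1 := Pool.Agent.X287.RS.coeff_eq E hreal H hA h ht hQ' (hBp B hB)
    rw [← hZ ρ₀, hκB B hB] at h1
    refine Iff.trans h1 ?_
    refine forall_congr' fun ρ => imp_congr_right fun _ => ?_
    simp only [S_eq]
    rw [neg_add_eq_sub]
    exact Iff.rfl
  have c3 : (ZeroFree c e ρ₀ ∧ m = r) ↔
        ∀ ρ : ℝ, ρ₀ < ρ → ∃ C : ℝ, ∀ᶠ Y : ℝ in atTop,
          |S c e ρ (t ρ) Y - 2 * Real.log (R a b (Real.log Y))| ≤ C := by
    have h1 := Pool.Agent.X287.RS.rank_eq E hreal H hA h ht hQ'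
    rw [← hZ ρ₀] at h1
    simp only [S_eq]
    exact h1
  have c4 : ZeroFree c e ρ₀ ↔ ∀ ρ : ℝ, ρ₀ < ρ → ∀ ε : ℝ, 0 < ε → ∀ᶠ Y : ℝ in atTop,
        S c e ρ (t ρ) Y ≤ Real.exp (ε * Real.log Y ^ ρ) := by
    have h1 := Pool.Agent.X287.RS.cont_slow E hreal H hA h ht
    rw [← hZ ρ₀] at h1
    simp only [S_eq]
    exact h1
  refine ⟨fun hz => ?_, c1, c2, c3, c4⟩
  obtain ⟨G, hG⟩ := (hZ ρ₀).1 hz
  obtain ⟨h1, h2, -⟩ := Pool.Agent.X287.RS.limit_one E hreal H hA h hG
  refine ⟨h1, ?_⟩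
  rw [h2, Complex.ofReal_im]

end Pool.Agent.Results.MP_f50388_nt.OneSidedFormula
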