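import Mathlib
import Pool.Agent.TH841.TR.Fin2

/-!
# One-parameter families of elliptic curves over varying multiquadratic fields, at prime arguments

`W_t : y² = x³ + A(t) x + B(t) = (x - e₁(t)) (x - e₂(t)) (x - e₃(t))` with polynomials `e_i` such
that `e₂ - e₁ = D₀ u₀`, `e₃ - e₁ = D₀ u₁`, `e₂ - e₃ = D₀ u₂`, where `u_k` is a constant times
a product of `n_k` irreducible polynomials, these `n₀ + n₁ + n₂` irreducible polynomials being
pairwise different, and `D₀` is any nonzero polynomial not divisible by one of them. The curve `W_t`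
is considered over the field `F_t = ℚ(√D₁(t), ..., √D_s(t))`, for arbitrary nonzero polynomials
`D_i` not divisible by one of these polynomials. For a set `T` of indices let `s_k(T)` be the number
of the irreducible factors of `u_k` at which the twist of the family by `∏_{i ∈ T} D_i` has split
multiplicative reduction. Assume `2 n_k + s_k(T) ≤ n₀ + n₁ + n₂` for all `k` and `T`. Let
`G₁, ..., G_r` be different irreducible polynomials, dividing none of the `D_i` and `u_k`. The sum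
of `2 ^ ((rank W_t(F_t) + corank of the 2-primary part of Ш(W_t / F_t)) / 2 ^ s)` over the `t` with
`N < t ≤ N + M` for which all the `|G_i(t)|` are primes is at most `C M / (log M) ^ r`, uniformly
for `|N| ≤ M ^ L`. For `r = 1` and `G₁ = t` this is a bound over the primes `t`.
-/

set_option autoImplicit false

namespace Pool.Agent.Results.MP_f50388_nt.PencilsPrimeArguments

open Finset Polynomial

open Pool.Agent.TH841.NF.D (HasDiv crk rk)

/-- the curve `y² = x³ + A x + B` over `F` -/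
def EF (A B : ℤ) (F : Type) [Field F] : WeierstrassCurve F := ⟨0, 0, 0, (A : F), (B : F)⟩

/-- the number field `F` is generated by square roots of the integers `d i` -/
def Gen (F : Type) [Field F] [NumberField F] {s : ℕ} (d : Fin s → ℤ) : Prop :=
  ∃ x : Fin s → F, (∀ i, x i ^ 2 = (d i : F)) ∧
    IntermediateField.adjoin ℚ (Set.range x) = ⊤

/-- `u_k = a_k ∏ f_{k,i}` -/
noncomputable def u {n : Fin 3 → ℕ} (a : Fin 3 → ℤ) (f : ∀ k : Fin 3, Fin (n k) → ℤ[X])
    (k : Fin 3) : ℤ[X] := C (a k) * ∏ i, f k i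

/-- `v` is a square modulo `f`, over the rationals -/
def SqMod (f v : ℤ[X]) : Prop := ∃ q : ℚ[X], f.map (Int.castRingHom ℚ) ∣
  (q ^ 2 - v.map (Int.castRingHom ℚ))

/-- modulo a factor `f` of `u_k`, the curve `y² = x (x - D u₀) (x - D u₁)` has a node whose tangent
directions are the square roots of `v_k`; so the reduction at `f` is split if and only if `v_k` is a
square modulo `f` -/
noncomputable def v {n : Fin 3 → ℕ} (D : ℤ[X]) (a : Fin 3 → ℤ)
    (f : ∀ k : Fin 3, Fin (n k) → ℤ[X]) : Fin 3 → ℤ[X] :=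
  ![-(D * u a f 1), -(D * u a f 0), D * u a f 0]

open Classical in
/-- the number of the factors of `u_k` at which `y² = x (x - D u₀) (x - D u₁)` has split
multiplicative reduction -/
noncomputable def sp {n : Fin 3 → ℕ} (D : ℤ[X]) (a : Fin 3 → ℤ)
    (f : ∀ k : Fin 3, Fin (n k) → ℤ[X]) (k : Fin 3) : ℕ :=
  (univ.filter (fun i => SqMod (f k i) (v D a f k))).card

open Classical in
/-- the integers `t` with `N < t ≤ N + M` that are not zeros of the polynomials and for which all the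
`|G_i(t)|` are primes -/
noncomputable def Par {n : Fin 3 → ℕ} {s r : ℕ} (a : Fin 3 → ℤ)
    (f : ∀ k : Fin 3, Fin (n k) → ℤ[X]) (D₀ : ℤ[X])
    (D : Fin s → ℤ[X]) (G : Fin r → ℤ[X]) (N : ℤ) (M : ℕ) : Finset ℤ :=
  (Ioc N (N + M)).filter (fun t => ((∀ k, (D₀ * u a f k).eval t ≠ 0) ∧
    ∀ i, (D i).eval t ≠ 0) ∧ ∀ i, ((G i).eval t).natAbs.Prime)

open Classical in
/-- **Theorem.** Let `u_k = a_k ∏_{i < n_k} f_{k,i}`, `k = 0, 1, 2`, be polynomials with integer
coefficients with `u₀ - u₁ = u₂`, where `a_k ≠ 0` and the `n₀ + n₁ + n₂` polynomials `f_{k,i}` are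
irreducible of positive degree and pairwise non-associated, let `D₀`, ..., `D_s` be nonzero
polynomials with integer coefficients not divisible by any `f_{k,i}`, and `A`, `B`, `e₁`, `e₂`, `e₃`
polynomials with integer coefficients such that `x³ + A x + B = (x - e₁) (x - e₂) (x - e₃)`,
`e₂ - e₁ = D₀ u₀` and `e₃ - e₁ = D₀ u₁`. For `T ⊆ {1, ..., s}` let `s_k(T)` be the number of the
`i` such that the twist by `D₀ ∏_{l ∈ T} D_l` of `y² = x (x - u₀) (x - u₁)` has split multiplicative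
reduction at `f_{k,i}`. Assume that `2 n_k + s_k(T) ≤ n₀ + n₁ + n₂` for all `k` and `T`. Let
`G₁, ..., G_r` be pairwise non-associated irreducible polynomials of positive degree that
divide none of `D₀, ..., D_s` and are not associated to any `f_{k,i}`. Let
`F t = ℚ(√D₁(t), ..., √D_s(t))` and `W t : y² = x³ + A(t) x + B(t)` over `F t`. For every `L` there
is `C` such that for all integers `M ≥ 2` and `|N| ≤ M ^ L` and the `t` with `N < t ≤ N + M`, not a
zero of the polynomials, with all the `|G_i(t)|` prime: with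
`ρ t = rank W_t(F_t) + corank Ш(W_t / F_t)[2^∞]`, the sum of `2 ^ (ρ t / 2 ^ s)` is at most
`C M / (log M) ^ r`, and at most `C M / ((log M) ^ r 2 ^ (m / 2 ^ s))` of these `t` have
`ρ t ≥ m`. -/
theorem result (n : Fin 3 → ℕ) (s : ℕ) (a : Fin 3 → ℤ) (f : ∀ k : Fin 3, Fin (n k) → ℤ[X])
    (ha : ∀ k, a k ≠ 0) (hf : ∀ k i, Irreducible (f k i) ∧ 0 < (f k i).natDegree)
    (hf' : ∀ k i l j, (⟨k, i⟩ : Σ k : Fin 3, Fin (n k)) ≠ ⟨l, j⟩ → ¬ Associated (f k i) (f l j))
    (hu : u a f 0 - u a f 1 = u a f 2)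
    (D₀ : ℤ[X]) (hD₀ : D₀ ≠ 0) (hDf₀ : ∀ k i, ¬ f k i ∣ D₀)
    (D : Fin s → ℤ[X]) (hD : ∀ l, D l ≠ 0) (hDf : ∀ l k i, ¬ f k i ∣ D l)
    (hs : ∀ (T : Finset (Fin s)) (k : Fin 3),
      2 * n k + sp (D₀ * ∏ i ∈ T, D i) a f k ≤ n 0 + n 1 + n 2)
    (A B e₁ e₂ e₃ : ℤ[X])
    (he : ∀ t x : ℤ, x ^ 3 + A.eval t * x + B.eval t =
      (x - e₁.eval t) * (x - e₂.eval t) * (x - e₃.eval t))
    (h12 : e₂ - e₁ = D₀ * u a f 0) (h13 : e₃ - e₁ = D₀ * u a f 1)
    (r : ℕ) (G : Fin r → ℤ[X]) (hG : ∀ i, Irreducible (G i) ∧ 0 < (G i).natDegree)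
    (hG' : ∀ i j, i ≠ j → ¬ Associated (G i) (G j))
    (hGf : ∀ i k j, ¬ Associated (f k j) (G i)) (hGD₀ : ∀ i, ¬ G i ∣ D₀)
    (hGD : ∀ l i, ¬ G i ∣ D l) (L : ℕ) :
    ∃ C : ℝ, ∀ (N : ℤ) (M : ℕ), 2 ≤ M → |N| ≤ (M : ℤ) ^ L →
      ∀ (F : ℤ → Type) [∀ t, Field (F t)] [∀ t, NumberField (F t)],
      (∀ t ∈ Par a f D₀ D G N M, Gen (F t) (fun i => (D i).eval t)) →
      ∀ W : ∀ t, WeierstrassCurve (F t), (∀ t, W t = EF (A.eval t) (B.eval t) (F t)) →
      (∀ t ∈ Par a f D₀ D G N M, BddAbove {q | HasDiv (W t) q}) ∧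
      ∑ t ∈ Par a f D₀ D G N M, ((2 : ℝ) ^ (rk (W t) + crk (W t))) ^ ((1 : ℝ) / 2 ^ s) ≤
        C * (M / (Real.log M) ^ r) ∧
      ∀ m : ℕ, (((Par a f D₀ D G N M).filter (fun t => m ≤ rk (W t) + crk (W t))).card : ℝ) ≤
        C * (M / (Real.log M) ^ r) / ((2 : ℝ) ^ m) ^ ((1 : ℝ) / 2 ^ s) := by
  have hirr : Pool.Agent.TH841.PT.Irr (Pool.Agent.TH841.TR.fp f) :=
    ⟨fun x => (hf x.1 x.2).1, fun x => (hf x.1 x.2).2, fun x y hxy => hf' x.1 x.2 y.1 y.2 hxy⟩
  have hirrG : Pool.Agent.TH841.PT.Irr G := ⟨fun i => (hG i).1, fun i => (hG i).2, hG'⟩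
  have hB : ∀ T : Finset (Fin s), Pool.Agent.TH841.TR.Bal (D₀ * ∏ i ∈ T, D i) a f := fun T =>
    Pool.Agent.TH841.TR.bal_of (v := v (D₀ * ∏ i ∈ T, D i) a f) rfl rfl rfl (hs T)
  obtain ⟨C, hC⟩ := Pool.Agent.TH841.TR.penFP Pool.Agent.TH841.TR.tav3x
    Pool.Agent.TH841.TR.tav3xg hirrG a f ha hirr hu hGf s D₀ hD₀ hDf₀ hGD₀ D hD hDf hGD
    A B e₁ e₂ e₃ he h12 h13 hB L
  refine ⟨C, fun N M hM hN F _ _ hF W hW => hC N M hM hN _ ?_ F hF W hW⟩
  unfold Par
  ext t
  rw [mem_filter, mem_filter]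
  exact Iff.rfl

end Pool.Agent.Results.MP_f50388_nt.PencilsPrimeArguments
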