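import Mathlib
import Pool.Agent.Y698.SG.Fj
import Pool.Agent.Y698.SG.Ug
import Pool.Agent.Y698.SG.Uj
import Pool.Agent.Y698.SG.Dwc
import Pool.Agent.Y698.SG.Ebb
import Pool.Agent.X99.PA.Pat
import Pool.Agent.X99.C49.Fin

/-!
# The formula modulo two for the prime twists of all the twists by the divisors of `D`, over many fields

`R` is any nonempty finite set of primes `r ≡ 1 mod 4` which are inert in `ℚ(√-7)`, `n_r ≥ 1`, and `K_r`
is the subfield of degree `2 ^ n_r` of `ℚ(ζ_r)`, for `r ∈ R`. `E_D` is the quadratic twist by `D` of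
`X_0(49) : y² + x y = x³ - x² - 2 x - 1`, and

`z(D, K) = √|Disc K| #E_D(K)_tors² L(E_D/K, 1) / (Ω ∏ c_v)`,

which is zero or the order of `Ш(E_D/K)` according to the refined conjecture. `D` is ANY member of the
class of the odd squarefree positive integers prime to `R` whose prime factors are `1` modulo `4`, split
completely in all the fields `K_r` if they split in `ℚ(√-7)`, and have Frobenius elements of order one
or two in all the fields `K_r` otherwise. Let `q` run through the primes `1 mod 4` not in `R` and prime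
to `D` which are inert in `ℚ(√-7)` and have a Frobenius element of order one or two in all the `K_r`.

For each divisor `m` of `D` the curve `E_{m q}` has one of two behaviours: both sides of the formula of
Birch and Swinnerton-Dyer are odd over ALL the fields `K_r` (`L(E_{m q}/K_r, 1) ≠ 0`, `E_{m q}(K_r)`
finite, `Ш(E_{m q}/K_r)[2^∞] = 0`, and `z(m q, K_r)` is a unit at all the primes above two), or both are
even over ALL the fields `K_r` (`z(m q, K_r)` is in the maximal ideal of all the valuations above two,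
and `E_{m q}(K_r)` is infinite or `Ш(E_{m q}/K_r)` has an element of order two). The theorem gives the
JOINT distribution of the behaviours of these `2^{ω(D)}` curves when the prime `q` varies: for every set
`G` of divisors of `D`, the primes `q` for which exactly the divisors in `G` have the first behaviour
have relative natural density exactly

`δ(D, G) = #{U ⊆ S(D) : for all m ∣ D, det A(m, U) ≠ 0 if and only if m ∈ G} / 2^{#S(D)}`,

where `S(m)` is the set of the prime factors of `m` that split in `ℚ(√-7)` and `A(m, U)` is the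
symmetric matrix over `𝔽₂` indexed by `S(m)` with the additive residue symbols `[p' / p]` off the
diagonal and `1_U(p) + ∑_{l ∣ m, l ≠ p} [l / p]` on the diagonal. The densities do not depend on the
fields. If all the primes of `D` are squares modulo those in `S(D)`, then for every `U ⊆ S(D)` the
primes `q` for which exactly the divisors `m` with `S(m) ⊆ U` have the first behaviour have density
`2^{-#S(D)}`; in particular (`U = S(D)`) for a positive density of the primes `q` both sides are odd for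
all the `2^{ω(D)}` curves `E_{m q}`, `m ∣ D`, over all the fields `K_r`.

Proof. The values and the descent over `K` are those of the teams of `Pool/Agent/Y698`. New is the joint
equidistribution (`Pool/Agent/X99/PA/Pat`): all the matrices of the criterion for `m q`, `m ∣ D`, are
given by the same vector of residue symbols of `q`, which is equidistributed over the classes modulo
`28 D ∏ r`; the primes by the prime number theorem for arithmetic progressions.
-/

set_option autoImplicit false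

open Finset NumberField NumberField.InfinitePlace IsDedekindDomain WeierstrassCurve MeasureTheory

namespace Pool.Agent.Results.MP_f50388_nt.RefinedFormulaPrimeTwists

open Pool.Agent.TH841.NF.D (Sha)
open Pool.Agent.TH841.SH.D (Pt)

/-- For `D ≡ 1 mod 4` the quadratic twist by `D` of the elliptic curve
`X_0(49) : y² + x y = x³ - x² - 2 x - 1`:
the curve `y² + x y = x³ - (3 D + 1) / 4 x² - 2 D² x - D³`. -/
def twist (D : ℕ) : WeierstrassCurve ℤ := ⟨1, -((3 * D + 1) / 4), 0, -2 * D ^ 2, -D ^ 3⟩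

/-- The curve given by the equation of `W` over the ring `R`. -/
abbrev base (W : WeierstrassCurve ℤ) (R : Type) [CommRing R] : WeierstrassCurve R :=
  W.map (Int.castRingHom R)

section

variable {K : Type} [Field K] [NumberField K]

/-- `W⁰(K_v)`, the group of the points of `W` over the completion `K_v` with nonsingular reduction:
the point at infinity and the points `(x, y)` where `x` is not integral, or one of the partial
derivatives of `y² + a₁ x y + a₃ y - x³ - a₂ x² - a₄ x - a₆` is a unit at `(x, y)`.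
Here `Pt W K_v` is the group of the points of `W` over `K_v`. -/
noncomputable def nonsing (W : WeierstrassCurve K) (v : HeightOneSpectrum (𝓞 K)) :
    AddSubgroup (Pt W (v.adicCompletion K)) :=
  AddSubgroup.closure {P | ∀ x y h, P = Affine.Point.some x y h →
    1 < Valued.v x ∨
    Valued.v ((W.baseChange (v.adicCompletion K)).a₁ * y -
      (3 * x ^ 2 + 2 * (W.baseChange (v.adicCompletion K)).a₂ * x +
        (W.baseChange (v.adicCompletion K)).a₄)) = 1 ∨
    Valued.v (2 * y + (W.baseChange (v.adicCompletion K)).a₁ * x +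
      (W.baseChange (v.adicCompletion K)).a₃) = 1}

/-- The Tamagawa number `c_v = [W(K_v) : W⁰(K_v)]` of a minimal equation. -/
noncomputable def c (W : WeierstrassCurve K) (v : HeightOneSpectrum (𝓞 K)) : ℕ :=
  (nonsing W v).index

/-- The product of the Tamagawa numbers. -/
noncomputable def Tam (W : WeierstrassCurve K) : ℕ := ∏ᶠ v : HeightOneSpectrum (𝓞 K), c W v

/-- The 2-primary part of the Tate-Shafarevich group over `K`. -/
def Sha2 (W : WeierstrassCurve K) : Set (Sha W) := {x | ∃ n : ℕ, 2 ^ n • x = 0}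

end

/-- `4 x³ + b₂ x² + 2 b₄ x + b₆ = (2 y + a₁ x + a₃)²`. -/
def cubic (W : WeierstrassCurve ℤ) {R : Type} [CommRing R] (x : R) : R :=
  4 * x ^ 3 + W.b₂ * x ^ 2 + 2 * W.b₄ * x + W.b₆

/-- `∫_{W(ℝ)} |ω|` with `ω = dx / (2 y + a₁ x + a₃)`, as an integral over `x`: two real points lie
over each `x` with `cubic x > 0`. -/
noncomputable def realPeriod (W : WeierstrassCurve ℤ) : ℝ :=
  2 * ∫ x in {x : ℝ | 0 < cubic W x}, 1 / √(cubic W x)

/-- `2 ∫_{W(ℂ)} |ω ∧ ω̄|`, where `|ω ∧ ω̄| = du dv` in a local parameter `z = u + i v` with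
`dz = ω`, as an integral over `x`: two points lie over a general `x`, and `|ω ∧ ω̄|` is the area
element of the plane of `x` divided by `|cubic x|`. -/
noncomputable def complexPeriod (W : WeierstrassCurve ℤ) : ℝ := 2 * (2 * ∫ x : ℂ, 1 / ‖cubic W x‖)

/-- `Ω_{W/K}`. -/
noncomputable def Omega (K : Type) [Field K] [NumberField K] (W : WeierstrassCurve ℤ) : ℝ :=
  realPeriod W ^ nrRealPlaces K * complexPeriod W ^ nrComplexPlaces K

open Classical in
/-- The order of the torsion subgroup of `W(K)`. -/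
noncomputable def torsOrder (K : Type) [Field K] [NumberField K] (W : WeierstrassCurve ℤ) : ℕ :=
  Nat.card (AddCommGroup.torsion (base W K).toAffine.Point)

/-- The order of the Tate-Shafarevich group predicted by the formula, for a curve with an equation that
is minimal at all finite places and the value `l` of its L-function at `s = 1`:
`√|Disc K| #W(K)_tors² l / (Ω_{W/K} ∏ c_v)`. -/
noncomputable def anOrder (K : Type) [Field K] [NumberField K] (W : WeierstrassCurve ℤ) (l : ℂ) : ℂ :=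
  l * (√|(discr K : ℝ)| : ℝ) * (torsOrder K W : ℂ) ^ 2 / ((Omega K W : ℝ) * (Tam (base W K) : ℂ))

/-- `D` is squarefree, its prime factors are different from `r` and `1` modulo `4`; those which split
in `ℚ(√-7)` split completely in the field `K` of degree `2 ^ n` (they are `2 ^ n`-th powers modulo `r`),
and the others have a Frobenius element in `Gal(K/ℚ)` of order one or two (their squares are
`2 ^ n`-th powers modulo `r`) -/
def Class (r n D : ℕ) : Prop := Squarefree D ∧ ∀ p : ℕ, p.Prime → p ∣ D → p % 4 = 1 ∧ p ≠ r ∧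
  (IsSquare (-7 : ZMod p) → ∃ y : ZMod r, y ^ 2 ^ n = (p : ZMod r)) ∧
  (¬ IsSquare (-7 : ZMod p) → ∃ y : ZMod r, y ^ 2 ^ n = (p : ZMod r) ^ 2)

/-- the class for several fields -/
def ClassAll (R : Finset ℕ) (n : ℕ → ℕ) (D : ℕ) : Prop :=
  (Squarefree D ∧ ∀ p : ℕ, p.Prime → p ∣ D → p % 4 = 1) ∧ ∀ r ∈ R, Class r (n r) D

/-- `E_D(K)` is finite and `Ш(E_D/K)` has no element of order two -/
def FiniteShaTwo (K : Type) [Field K] [NumberField K] (D : ℕ) : Prop :=
  Finite (base (twist D) K).toAffine.Point ∧ ∀ x : Sha (base (twist D) K), x + x = 0 → x = 0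

/-- `Λ` is the analytic continuation to the complex plane of the L-function of `E_D` over `K` -/
def IsLFunction (K : Type) [Field K] [NumberField K] (D : ℕ) (Λ : ℂ → ℂ) : Prop :=
  Differentiable ℂ Λ ∧ ∀ s : ℂ, 2 < s.re → Λ s = (base (twist D) K).LSeries s

/-- Both sides of the formula are odd: `E_D(K)` is finite, `Ш(E_D/K)[2^∞] = 0`, `L(E_D/K, 1) ≠ 0`, and
`z(D, K)` is a unit for all the valuations of `ℂ` above two. -/
def BothOdd (K : Type) [Field K] [NumberField K] (D : ℕ) : Prop :=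
  Finite (base (twist D) K).toAffine.Point ∧ Sha2 (base (twist D) K) = {0} ∧
    ∃ Λ : ℂ → ℂ, IsLFunction K D Λ ∧ Λ 1 ≠ 0 ∧
      ∀ (Γ : Type) [LinearOrderedCommGroupWithZero Γ] (v : Valuation ℂ Γ), v 2 < 1 →
        v (anOrder K (twist D) (Λ 1)) = 1

/-- Both sides of the formula are even: `E_D(K)` is infinite or `Ш(E_D/K)` has an element of order two,
and `z(D, K)` is integral and not a unit for all the valuations of `ℂ` above two. -/
def BothEven (K : Type) [Field K] [NumberField K] (D : ℕ) : Prop :=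
  (Infinite (base (twist D) K).toAffine.Point ∨ ∃ x : Sha (base (twist D) K), x ≠ 0 ∧ x + x = 0) ∧
    ∃ Λ : ℂ → ℂ, IsLFunction K D Λ ∧
      ∀ (Γ : Type) [LinearOrderedCommGroupWithZero Γ] (v : Valuation ℂ Γ), v 2 < 1 →
        v (anOrder K (twist D) (Λ 1)) < 1

/-- The new primes `q`: `q ≡ 1 mod 4` is inert in `ℚ(√-7)` and not in `R`, and has a Frobenius element of
order one or two in all the fields `K_r` -/
def NewPrime (R : Finset ℕ) (n : ℕ → ℕ) (q : ℕ) : Prop :=
  q.Prime ∧ q % 4 = 1 ∧ ¬ IsSquare (-7 : ZMod q) ∧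
    ∀ r ∈ R, q ≠ r ∧ ∃ y : ZMod r, y ^ 2 ^ n r = (q : ZMod r) ^ 2

open Classical in
/-- the set of the prime factors of `D` that split in `ℚ(√-7)` -/
noncomputable def S (D : ℕ) : Finset ℕ := D.primeFactors.filter fun p => IsSquare (-7 : ZMod p)

open Classical in
/-- the additive residue symbol `[a / p]`: `1` if `a` is not a square modulo `p` and `0` otherwise -/
noncomputable def symbol (p a : ℕ) : ZMod 2 := if IsSquare (a : ZMod p) then 0 else 1

open Classical in
/-- the symmetric matrix `A(m, U)`: off the diagonal the symbols `[p' / p]` of the elements of `S(m)`,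
on the diagonal the sum of `1_U(p)` and of the symbols `[l / p]` for the other prime factors `l` of
`m` -/
noncomputable def matrix (m : ℕ) (U : Finset ℕ) : Matrix (S m) (S m) (ZMod 2) :=
  Matrix.of fun i j => if i = j then
    (if (i : ℕ) ∈ U then 1 else 0) + ∑ l ∈ m.primeFactors.erase (i : ℕ), symbol i l
  else symbol i j

open Classical in
/-- the number of the subsets `U` of `S(D)` for which exactly the divisors `m ∈ G` of `D` have a
nonsingular matrix `A(m, U)` -/
noncomputable def k (D : ℕ) (G : Finset ℕ) : ℕ :=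
  ((S D).powerset.filter fun U => ∀ m ∈ D.divisors, ((matrix m U).det ≠ 0 ↔ m ∈ G)).card

/-- the density -/
noncomputable def δ (D : ℕ) (G : Finset ℕ) : ℝ := (k D G : ℝ) / 2 ^ (S D).card

open Classical in
/-- the number of the new primes `q ≤ X` prime to `D` with the property `Q` -/
noncomputable def count (R : Finset ℕ) (n : ℕ → ℕ) (D : ℕ) (Q : ℕ → Prop) (X : ℕ) : ℕ :=
  ((Icc 1 X).filter fun q => (NewPrime R n q ∧ ¬ q ∣ D) ∧ Q q).card

section proof

open Pool.Agent.Y698

lemma base_eq {D j : ℕ} (hj : D = 1 + 4 * j) (K : Type) [Field K] : base (twist D) K = AX K j :=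
  twZ_map hj K

lemma cubic_eq {D j : ℕ} (hj : D = 1 + 4 * j) {R : Type} [CommRing R] (x : R) :
    cubic (twist D) x = psD (1 + 4 * j) x := by
  have h1 : (3 * (D : ℤ) + 1) / 4 = 1 + 3 * j := by
    rw [hj]
    push_cast
    omega
  unfold cubic twist WeierstrassCurve.b₂ WeierstrassCurve.b₄ WeierstrassCurve.b₆ psD
  simp only
  rw [h1, hj]
  push_cast
  ring

lemma real_eq {D j : ℕ} (hj : D = 1 + 4 * j) : realPeriod (twist D) =
    ∫ x in {x : ℝ | 0 < psD (1 + 4 * j) x}, 2 / Real.sqrt (psD (1 + 4 * j) x) := by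
  unfold realPeriod
  simp only [cubic_eq hj]
  rw [← integral_const_mul]
  congr 1
  funext x
  ring

lemma cplx_eq {D j : ℕ} (hj : D = 1 + 4 * j) : complexPeriod (twist D) =
    ∫ x : ℂ, 4 / ‖psD (1 + 4 * j) x‖ := by
  unfold complexPeriod
  simp only [cubic_eq hj]
  rw [← mul_assoc, ← integral_const_mul]
  congr 1
  funext x
  ring


open Pool.Agent.X99.C49 in
/-- one field -/
lemma one_field {r n : ℕ} (hr : r.Prime) (h4 : r % 4 = 1) (h7 : ¬ IsSquare (-7 : ZMod r))
    (hn : 1 ≤ n) (K : IntermediateField ℚ (CyclotomicField r ℚ))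
    (hK : Module.finrank ℚ K = 2 ^ n) {D : ℕ} (hD : KP.FamK r n D) :
    (BothOdd K D ∧ (mat (IP D) (SPr D)).det ≠ 0) ∨ (BothEven K D ∧ ¬ (mat (IP D) (SPr D)).det ≠ 0) := by
  classical
  have : Fact r.Prime := ⟨hr⟩
  have hM : IsCyclotomicExtension {r} ℚ (CyclotomicField r ℚ) := Pool.Agent.Y698.cyc_inst r
  have hN : Normal ℚ K := (Pool.Agent.Y698.isGalK r K (M := CyclotomicField r ℚ)).to_normal
  have hir : Pool.Agent.Y698.Inq r := ⟨hr, h4, h7⟩
  have hfam : Fam D := hD.1
  have hQ' : ∀ q ∈ IP D, Pool.Agent.Y698.Inq q ∧ q ≠ r := fun q hq =>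
    ⟨inq hfam q hq, (hD.2 q (Nat.prime_of_mem_primeFactors (mem_IP.1 hq).1)
      (Nat.dvd_of_mem_primeFactors (mem_IP.1 hq).1)).1⟩
  have hP' : ∀ p ∈ SPr D, Pool.Agent.Y698.SG.Spl p := fun p hp => spl hfam p hp
  obtain ⟨j, hj⟩ : ∃ j, D = 1 + 4 * j := ⟨D / 4, by have := fam4 hfam; omega⟩
  have hprod : ∏ q ∈ IP D ∪ SPr D, q = 1 + 4 * j := by rw [← hj]; exact Mn_eq hfam
  -- the criterion
  have heq := Pool.Agent.Y698.SG.equiv_all (CyclotomicField r ℚ) K hK hn hir hQ' hP' hprod
  have hcl1 : ∀ q ∈ IP D, ∃ y : ZMod r, y ^ 2 ^ n = (q : ZMod r) ^ 2 := fun q hq => by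
    obtain ⟨h1, h2⟩ := mem_IP.1 hq
    exact (hD.2 q (Nat.prime_of_mem_primeFactors h1) (Nat.dvd_of_mem_primeFactors h1)).2.2 h2
  have hcl2 : ∀ p ∈ SPr D, ∃ y : ZMod r, y ^ 2 ^ n = (p : ZMod r) := fun p hp => by
    obtain ⟨h1, h2⟩ := mem_SPr.1 hp
    exact (hD.2 p (Nat.prime_of_mem_primeFactors h1) (Nat.dvd_of_mem_primeFactors h1)).2.1 h2
  have hCond : FiniteShaTwo K D ↔ ((∀ q ∈ IP D, ∃ y : ZMod r, y ^ 2 ^ n = (q : ZMod r) ^ 2) ∧
        (∀ p ∈ SPr D, ∃ y : ZMod r, y ^ 2 ^ n = (p : ZMod r)) ∧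
          (Pool.Agent.Y698.SG.mat (IP D) (SPr D)).det ≠ 0) := by
    unfold FiniteShaTwo
    rw [base_eq hj]
    exact heq.symm
  have hdet : FiniteShaTwo K D ↔ (mat (IP D) (SPr D)).det ≠ 0 :=
    hCond.trans ⟨fun h => h.2.2, fun h => ⟨hcl1, hcl2, h⟩⟩
  have han : ∀ l : ℂ, anOrder K (twist D) l = Pool.Agent.Y698.SG.quoT K j l := by
    intro l
    unfold anOrder torsOrder Omega
    rw [base_eq hj, real_eq hj, cplx_eq hj]
    unfold Pool.Agent.Y698.SG.quoT Pool.Agent.Y698.SG.tnum
    have hT : Tam (Pool.Agent.Y698.AX K j) = ∏ᶠ v, Pool.Agent.Y698.tam (Pool.Agent.Y698.AX K j) v :=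
      rfl
    rw [hT]
    generalize (∏ᶠ v, Pool.Agent.Y698.tam (Pool.Agent.Y698.AX K j) v : ℕ) = t
    push_cast
    rfl
  obtain ⟨Λ, h1, h2, h3⟩ := Pool.Agent.Y698.SG.level_all (CyclotomicField r ℚ) K hK hn hir
    hQ' hP' hprod
  have hL : IsLFunction K D Λ := ⟨h1, by rw [base_eq hj]; exact h2⟩
  by_cases hd : (mat (IP D) (SPr D)).det ≠ 0
  · left
    refine ⟨?_, hd⟩
    have hdt : Pool.Agent.Y698.SG.Dt r n (IP D) (SPr D) := by
      obtain ⟨k, rfl⟩ : ∃ k, n = k + 1 := ⟨n - 1, by omega⟩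
      exact ⟨hn, hir, fun q hq => ⟨(hQ' q hq).1, (hQ' q hq).2, hcl1 q hq⟩,
          fun p hp => ⟨hP' p hp, hcl2 p hp⟩, hd⟩
    have hv : ∀ (Γ : Type) [LinearOrderedCommGroupWithZero Γ] (v : Valuation ℂ Γ), v 2 < 1 →
        v (anOrder K (twist D) (Λ 1)) = 1 := by
      intro Γ _ v hv
      rw [han]
      exact ((h3 Γ v hv).2).2 (hCond.1 (hdet.2 hd))
    refine ⟨(hdet.2 hd).1, ?_, Λ, hL, ?_, hv⟩
    · apply Set.eq_singleton_iff_unique_mem.2
      refine ⟨⟨0, smul_zero _⟩, ?_⟩
      rintro x ⟨l, hl⟩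
      revert x
      rw [base_eq hj]
      intro x hl
      obtain ⟨k, rfl⟩ : ∃ k, n = k + 1 := ⟨n - 1, by omega⟩
      exact Pool.Agent.Y698.SG.sha_two_powE (CyclotomicField r ℚ) K hK hdt hprod x l hl
    · intro h0
      refine Pool.Agent.Y698.SG.exists_val2 fun Γ _ v hv' => ?_
      have h6 := hv Γ v hv'
      rw [h0, han] at h6
      unfold Pool.Agent.Y698.SG.quoT at h6
      rw [zero_mul, zero_mul, zero_div, map_zero] at h6
      exact zero_ne_one h6
  · right
    refine ⟨⟨?_, Λ, hL, ?_⟩, hd⟩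
    · by_contra hne
      rw [not_or, not_infinite_iff_finite, not_exists] at hne
      apply hd
      rw [← hdet]
      refine ⟨hne.1, fun x hx => ?_⟩
      by_contra hx0
      exact hne.2 x ⟨hx0, hx⟩
    · intro Γ _ v hv
      have h5 := h3 Γ v hv
      rw [han]
      refine lt_of_le_of_ne h5.1 fun h6 => hd (hdet.1 (hCond.2 (h5.2.1 h6)))

/-- the two cases exclude each other -/
lemma not_both {K : Type} [Field K] [NumberField K] {D : ℕ} : ¬ (BothOdd K D ∧ BothEven K D) := by
  rintro ⟨⟨h1, h2, -⟩, h3, -⟩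
  rcases h3 with h3 | ⟨x, hx0, hx⟩
  · exact not_finite_iff_infinite.2 h3 h1
  · have h4 : x ∈ Sha2 (base (twist D) K) := ⟨1, by rw [pow_one, two_nsmul]; exact hx⟩
    rw [h2] at h4
    exact hx0 h4

open Pool.Agent.X99.C49 Pool.Agent.X99.C49.KP Pool.Agent.X99.C49.KR Pool.Agent.X99.PA

lemma S_eq (D : ℕ) : S D = SPr D := rfl

lemma matrix_eq (m : ℕ) (U : Finset ℕ) : matrix m U = pm m (Pool.Agent.X99.PA.ind U) := by
  have h : ∀ i j : SPr m, matrix m U i j = pm m (Pool.Agent.X99.PA.ind U) i j := by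
    intro i j
    by_cases h : i = j
    · subst h
      have h1 : matrix m U i i = (if (i : ℕ) ∈ U then 1 else 0) +
          ∑ l ∈ m.primeFactors.erase (i : ℕ), symbol i l := if_pos rfl
      have h2 : pm m (Pool.Agent.X99.PA.ind U) i i = Pool.Agent.X99.PA.ind U i +
          ∑ l ∈ m.primeFactors.erase (i : ℕ), nq i l := if_pos rfl
      have h3 : (if (i : ℕ) ∈ U then (1 : ZMod 2) else 0) = Pool.Agent.X99.PA.ind U i := by
        unfold Pool.Agent.X99.PA.ind
        by_cases h' : (i : ℕ) ∈ U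
        · rw [if_pos h']
        · rw [if_neg h']
      rw [h1, h2, h3]
      rfl
    · have h1 : matrix m U i j = symbol i j := if_neg h
      have h2 : pm m (Pool.Agent.X99.PA.ind U) i j = nq i j := if_neg h
      rw [h1, h2]
      rfl
  exact funext fun i => funext fun j => h i j

lemma k_eq (D : ℕ) (G : Finset ℕ) : k D G = kp D G := by
  unfold k kp
  simp only [matrix_eq]
  exact Pool.Agent.X99.GJ.fc _ fun x _ => Iff.rfl

/-- the class of the new primes -/
lemma new_iff {R : Finset ℕ} {n : ℕ → ℕ} (hR : HR R) {q : ℕ} :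
    NewPrime R n q ↔ q.Prime ∧ Pool.Agent.X99.PA.BB R n q := by
  unfold NewPrime Pool.Agent.X99.PA.BB
  refine and_congr_right fun hq => ?_
  rw [← and_assoc]
  refine and_congr ?_ ?_
  · constructor
    · rintro ⟨h4, h7⟩
      have hf : Fam q := ⟨hq.squarefree, fun p hp hpq => by
        rwa [(Nat.prime_dvd_prime_iff_eq hp hq).1 hpq]⟩
      have hm : q ∈ q.primeFactors := Nat.mem_primeFactors.2 ⟨hq, dvd_rfl, hq.ne_zero⟩
      rcases ((fam_iff q).2 hf).2.1 q hm with h | h
      · exact absurd ((sqA hf hm).1 h.2) h7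
      · exact h.2
    · intro h
      have h28 : q % 28 = 5 ∨ q % 28 = 13 ∨ q % 28 = 17 := by
        have h' : q % 28 ∈ ({5, 13, 17} : Finset ℕ) := h
        simpa using h'
      have h4 : q % 4 = 1 := by omega
      refine ⟨h4, ?_⟩
      have hf : Fam q := ⟨hq.squarefree, fun p hp hpq => by
        rwa [(Nat.prime_dvd_prime_iff_eq hp hq).1 hpq]⟩
      have hm : q ∈ q.primeFactors := Nat.mem_primeFactors.2 ⟨hq, dvd_rfl, hq.ne_zero⟩
      rw [← sqA hf hm]
      exact fun h' => Finset.disjoint_left.1 ok28.disj h' h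
  · refine forall_congr' fun r => forall_congr' fun hr => and_congr ?_ Iff.rfl
    refine not_congr ⟨?_, fun h => ?_⟩
    · rintro rfl
      exact Nat.mod_self _
    · exact ((Nat.prime_dvd_prime_iff_eq (hR r hr).1 hq).1 (Nat.dvd_of_mod_eq_zero h)).symm

end proof

open Pool.Agent.X99.C49 Pool.Agent.X99.C49.KR Pool.Agent.X99.PA in
/-- **Prime twists of all the twists by the divisors of `D`, over many fields.** -/
theorem result (R : Finset ℕ) (n : ℕ → ℕ) (hR0 : R.Nonempty)
    (hR : ∀ r ∈ R, r.Prime ∧ r % 4 = 1 ∧ ¬ IsSquare (-7 : ZMod r) ∧ 1 ≤ n r)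
    (K : ∀ r : ℕ, IntermediateField ℚ (CyclotomicField r ℚ))
    (hK : ∀ r ∈ R, Module.finrank ℚ (K r) = 2 ^ n r) {D : ℕ} (hD : ClassAll R n D) :
    (∀ q : ℕ, NewPrime R n q → ¬ q ∣ D → ∀ m ∈ D.divisors,
      ClassAll R n (m * q) ∧
      ((∀ r ∈ R, BothOdd (K r) (m * q)) ∨ (∀ r ∈ R, BothEven (K r) (m * q))) ∧
      ∀ r ∈ R, ¬ (BothOdd (K r) (m * q) ∧ BothEven (K r) (m * q))) ∧
    (∀ G : Finset ℕ, Filter.Tendsto (fun X : ℕ => (count R n D (fun q => ∀ m ∈ D.divisors, ∀ r ∈ R,
        (m ∈ G → BothOdd (K r) (m * q)) ∧ (m ∉ G → BothEven (K r) (m * q))) X : ℝ) /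
      (count R n D (fun _ => True) X : ℝ)) Filter.atTop (nhds (δ D G))) ∧
    ((∀ p ∈ S D, ∀ l ∈ D.primeFactors, l ≠ p → symbol p l = 0) → ∀ U ⊆ S D,
      δ D (D.divisors.filter fun m => S m ⊆ U) = (1 / 2 : ℝ) ^ (S D).card) := by
  classical
  have hHR : KR.HR R := by
    intro r hr
    obtain ⟨h1, h2, h3, -⟩ := hR r hr
    refine ⟨h1, ?_⟩
    have h4 : Nat.Coprime (2 ^ 2 * 7) r := by
      refine Nat.Coprime.mul_left ?_ ?_
      · refine Nat.Coprime.pow_left 2 ?_
        rw [Nat.coprime_primes Nat.prime_two h1]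
        rintro rfl
        exact absurd h2 (by decide)
      · rw [Nat.coprime_primes (by norm_num) h1]
        rintro rfl
        exact absurd h2 (by decide)
    exact h4
  have hcl : ∀ D : ℕ, ClassAll R n D ↔ KR.FamR R n D := by
    intro D
    unfold ClassAll KR.FamR
    refine and_congr_right fun h0 => forall_congr' fun r => forall_congr' fun _ => ?_
    constructor
    · rintro ⟨h1, h2⟩
      exact ⟨h0, fun p hp hpD => (h2 p hp hpD).2⟩
    · rintro ⟨h1, h2⟩
      exact ⟨h0.1, fun p hp hpD => ⟨h0.2 p hp hpD, h2 p hp hpD⟩⟩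
  have hone : ∀ D : ℕ, KR.FamR R n D → ∀ r ∈ R,
      (BothOdd (K r) D ∧ (mat (IP D) (SPr D)).det ≠ 0) ∨
        (BothEven (K r) D ∧ ¬ (mat (IP D) (SPr D)).det ≠ 0) := by
    intro D hD r hr
    obtain ⟨h1, h2, h3, h4⟩ := hR r hr
    exact one_field h1 h2 h3 h4 (K r) (hK r hr) (hD.2 r hr)
  have hF := (hcl D).1 hD
  have hall : ∀ D : ℕ, KR.FamR R n D → ((∀ r ∈ R, BothOdd (K r) D) ↔ (mat (IP D) (SPr D)).det ≠ 0) ∧
      ((∀ r ∈ R, BothEven (K r) D) ↔ ¬ (mat (IP D) (SPr D)).det ≠ 0) := by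
    intro D hD
    obtain ⟨r0, hr0⟩ := hR0
    refine ⟨⟨fun h => ?_, fun h r hr => ?_⟩, ⟨fun h => ?_, fun h r hr => ?_⟩⟩
    · rcases hone D hD r0 hr0 with h' | h'
      · exact h'.2
      · exact absurd ⟨h r0 hr0, h'.1⟩ not_both
    · rcases hone D hD r hr with h' | h'
      · exact h'.1
      · exact absurd h h'.2
    · rcases hone D hD r0 hr0 with h' | h'
      · exact absurd ⟨h'.1, h r0 hr0⟩ not_both
      · exact h'.2
    · rcases hone D hD r hr with h' | h'
      · exact absurd h'.2 h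
      · exact h'.1
  have hdiv : ∀ q : ℕ, q.Prime → ¬ q ∣ D → Pool.Agent.X99.PA.BB R n q → ∀ m ∈ D.divisors,
      KR.FamR R n (m * q) := by
    intro q hq hqD hB m hm
    obtain ⟨hmD, -⟩ := Nat.mem_divisors.1 hm
    exact (new_fam (fam_dvd hF hmD) hq (fun h => hqD (h.trans hmD)) hB).1
  refine ⟨fun q hq hqD m hm => ?_, fun G => ?_, fun hs U hU => ?_⟩
  · obtain ⟨h1, h2⟩ := (new_iff hHR).1 hq
    have h3 := hdiv q h1 hqD h2 m hm
    refine ⟨(hcl _).2 h3, ?_, fun r _ => not_both⟩
    by_cases hd : (mat (IP (m * q)) (SPr (m * q))).det ≠ 0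
    · exact Or.inl ((hall _ h3).1.2 hd)
    · exact Or.inr ((hall _ h3).2.2 hd)
  · have h := patterns (R := R) (n := n) hHR hF (fun D => (mat (IP D) (SPr D)).det ≠ 0)
      (fun D' _ => Iff.rfl) G
    unfold δ
    rw [k_eq]
    refine h.congr fun X => ?_
    unfold count
    refine congrArg₂ (fun a b : ℕ => (a : ℝ) / (b : ℝ)) ?_ ?_
    · refine Pool.Agent.X99.GJ.fc _ fun q _ => ?_
      rw [new_iff hHR]
      constructor
      · rintro ⟨h1, h2, h3, h4⟩
        refine ⟨⟨⟨h1, h3⟩, h2⟩, fun m hm r hr => ?_⟩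
        have h5 := hall _ (hdiv q h1 h2 h3 m hm)
        refine ⟨fun hmG => h5.1.2 ((h4 m hm).2 hmG) r hr, fun hmG => h5.2.2 (fun h6 => ?_) r hr⟩
        exact hmG ((h4 m hm).1 h6)
      · rintro ⟨⟨⟨h1, h3⟩, h2⟩, h4⟩
        refine ⟨h1, h2, h3, fun m hm => ?_⟩
        have h5 := hall _ (hdiv q h1 h2 h3 m hm)
        rw [← h5.1]
        refine ⟨fun h6 => ?_, fun hmG r hr => (h4 m hm r hr).1 hmG⟩
        by_contra hmG
        obtain ⟨r0, hr0⟩ := hR0
        exact not_both ⟨h6 r0 hr0, (h4 m hm r0 hr0).2 hmG⟩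
    · refine Pool.Agent.X99.GJ.fc _ fun q _ => ?_
      rw [new_iff hHR, and_true]
      constructor
      · rintro ⟨h1, h2, h3⟩
        exact ⟨⟨h1, h3⟩, h2⟩
      · rintro ⟨⟨h1, h3⟩, h2⟩
        exact ⟨h1, h2, h3⟩
  · have h1 : k D (D.divisors.filter fun m => S m ⊆ U) = 1 := by
      rw [k_eq]
      exact kp_one hU hs
    unfold δ
    rw [h1, Nat.cast_one, one_div, one_div, inv_pow]

end Pool.Agent.Results.MP_f50388_nt.RefinedFormulaPrimeTwists
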